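import Pool.Agent.K9h35.BP.Main

/-!
# The minimal (m, n)-product of Boolean algebras need not be the smallest

Let `A` be the algebra of the clopen subsets of the Cantor space `K = {0, 1}^ℕ` (the countable atomless
Boolean algebra), and let `n ≤ m` be any infinite cardinals. For the family which consists of two copies of
`A`, the minimal `(m, n)`-product `M` is the algebra of the regular open sets of `K × K`, with the preimages
under the two projections. Another `(m, n)`-product `Q` is the algebra of the regular open sets of `D × K`,
where `D` is the discrete group of the sequences with finite support, with the preimages under the maps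
`(q, x) ↦ x + q` and `(q, x) ↦ x`.

Let `e_k` be the element that the `k`-th coordinates of the two points agree. Then `⋀_{k ≥ N} e_k = 0` in `M`
for each `N`, but `⋁_N ⋀_{k ≥ N} e_k = 1` in `Q`. Hence there is no `m`-homomorphism from `Q` to `M` which
respects the embeddings, and more generally `M` and `Q` have no common lower bound.
-/

set_option autoImplicit false

namespace Pool.Agent.Results.MP_6fd33d_al.NoSmallestProduct

open scoped Cardinal
open Pool.Agent.K9h35.BP (Product)

/-- For all infinite cardinals `n ≤ m` there are two (countable, nondegenerate) Boolean algebras with the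
following property. Their minimal `(m, n)`-product `M` is not the smallest `(m, n)`-product: there is an
`(m, n)`-product `Q` with `¬ M ≤ Q`, that is, there is no `m`-homomorphism from the algebra of `Q` to the
algebra of `M` which maps the embeddings of `Q` to those of `M`. Even more, no `(m, 0)`-product lies below
both `M` and `Q`, so there is no smallest `(m, n)`-product at all. -/
theorem result (m n : Cardinal.{0}) (hn : ℵ₀ ≤ n) (hnm : n ≤ m) :
    ∃ (A : Bool → Type) (_ : ∀ t, BooleanAlgebra (A t)),
      (∀ t, Nontrivial (A t)) ∧ (∀ t, Countable (A t)) ∧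
      ∃ M Q : Product m A, M.IsMinimal n ∧ Q.InP n ∧ ¬ M.Le Q ∧
        (∀ L : Product m A, ¬ (L.Le M ∧ L.Le Q)) ∧
        ¬ ∃ L : Product m A, L.InP n ∧ ∀ P : Product m A, P.InP n → L.Le P := by
  have hm : ℵ₀ ≤ m := hn.trans hnm
  have hno := Pool.Agent.K9h35.BP.no_common hm
  have hmin := Pool.Agent.K9h35.BP.isMinimal_M (n := n) hm hn
  have hQ : (Pool.Agent.K9h35.BP.prodQ hm).InP n :=
    Pool.Agent.K9h35.BP.spanQ.inP m n Pool.Agent.K9h35.BP.zeroDim_K
      (Pool.Agent.K9h35.BP.generates_Q hm)
  refine ⟨fun _ => TopologicalSpace.Clopens Pool.Agent.K9h35.BP.K, fun _ => inferInstance,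
    fun _ => ⟨⊤, ⊥, Pool.Agent.K9h35.BP.top_ne_bot_clopens⟩,
    fun _ => Pool.Agent.K9h35.BP.countable_clopens_K,
    Pool.Agent.K9h35.BP.prodM hm, Pool.Agent.K9h35.BP.prodQ hm, hmin, hQ, ?_, hno, ?_⟩
  · intro h
    exact hno _ ⟨Pool.Agent.K9h35.BP.le_refl_product _, h⟩
  · rintro ⟨L, _, hL⟩
    exact hno L ⟨hL _ hmin.1, hL _ hQ⟩

end Pool.Agent.Results.MP_6fd33d_al.NoSmallestProduct
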